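import Pool.Agent.J4H12.MX.Main

/-!
# (CNJ): Sylow subgroups of a closed subgroup are conjugate
-/

set_option autoImplicit false

universe u

namespace Pool.Agent.J4H45.MX

open Pool.Agent.J4H12.MX

/-- Membership in the image of `A` in `K/(K ∩ U)`. -/
theorem mem_map_iff {G : Type u} [Group G] (K A U : Subgroup G) (hA : A ≤ K) [U.Normal]
    (x : K) :
    QuotientGroup.mk' (U.subgroupOf K) x ∈ (A.subgroupOf K).map (QuotientGroup.mk' (U.subgroupOf K)) ↔
      (x : G) ∈ A ⊔ U := by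
  constructor
  · rintro ⟨y, hy, hyx⟩
    have h1 : y⁻¹ * x ∈ U.subgroupOf K := by
      rw [← QuotientGroup.eq]
      exact hyx
    rw [Subgroup.mem_subgroupOf] at h1
    have hy' : (y : G) ∈ A := hy
    have h2 : (x : G) = (y : G) * ((y⁻¹ * x : K) : G) := by
      push_cast
      group
    rw [h2]
    exact Subgroup.mul_mem_sup hy' h1
  · intro hx
    obtain ⟨a, ha, b, hb, hab⟩ := Subgroup.mem_sup_of_normal_right.1 hx
    have haK : a ∈ K := hA ha
    refine ⟨⟨a, haK⟩, ha, ?_⟩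
    show (QuotientGroup.mk (⟨a, haK⟩ : K) : K ⧸ U.subgroupOf K) = QuotientGroup.mk x
    rw [QuotientGroup.eq, Subgroup.mem_subgroupOf]
    have : ((⟨a, haK⟩⁻¹ * x : K) : G) = b := by
      push_cast
      rw [← hab]
      group
    rw [this]
    exact hb

variable {G : Type u} [Group G] [TopologicalSpace G] [IsTopologicalGroup G] [CompactSpace G]

theorem finite_quot {U : Subgroup G} (hU : ON U) (K : Subgroup G) :
    Finite (K ⧸ U.subgroupOf K) := by
  haveI : Finite (G ⧸ U) := Subgroup.quotient_finite_of_isOpen U hU.2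
  haveI : U.FiniteIndex := Subgroup.finiteIndex_of_finite_quotient
  infer_instance

/-- In `K/(K ∩ U)` the images of two Sylow subgroups are conjugate. -/
theorem finite_step {p : ℕ} (hp : p.Prime) {K P Q : Subgroup G} (hP : Syl p K P)
    (hQ : Syl p K Q) {U : Subgroup G} (hU : ON U) :
    ∃ k ∈ K, (∀ x ∈ Q, k⁻¹ * x * k ∈ P ⊔ U) ∧ ∀ x ∈ P, k * x * k⁻¹ ∈ Q ⊔ U := by
  haveI := hU.1
  haveI := finite_quot hU K
  haveI : Fact p.Prime := ⟨hp⟩
  have hsyl : ∀ A : Subgroup G, Syl p K A → ∃ S : Sylow p (K ⧸ U.subgroupOf K),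
      (S : Subgroup (K ⧸ U.subgroupOf K)) =
        (A.subgroupOf K).map (QuotientGroup.mk' (U.subgroupOf K)) := by
    intro A hA
    have h1 : IsPGroup p ((A.subgroupOf K).map (QuotientGroup.mk' (U.subgroupOf K))) := by
      rintro ⟨z, y, hy, rfl⟩
      obtain ⟨k, hk⟩ := hA.prop (y : G) hy U hU
      refine ⟨k, ?_⟩
      apply Subtype.ext
      show (QuotientGroup.mk' (U.subgroupOf K) y) ^ p ^ k = 1
      rw [← map_pow]
      show (QuotientGroup.mk (y ^ p ^ k) : K ⧸ U.subgroupOf K) = 1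
      rw [QuotientGroup.eq_one_iff, Subgroup.mem_subgroupOf]
      push_cast
      exact hk
    have h2 : ¬ p ∣ ((A.subgroupOf K).map (QuotientGroup.mk' (U.subgroupOf K))).index := by
      have h3 : ((A.subgroupOf K).map (QuotientGroup.mk' (U.subgroupOf K))).index =
          (A ⊔ U).relIndex K := by
        rw [← Subgroup.index_comap_of_surjective _
          (QuotientGroup.mk'_surjective (U.subgroupOf K)), Subgroup.relIndex]
        congr 1
        ext x
        rw [Subgroup.mem_comap, mem_map_iff K A U hA.le x, Subgroup.mem_subgroupOf]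
      rw [h3]
      exact hA.idx U hU
    exact ⟨h1.toSylow h2, rfl⟩
  obtain ⟨S, hS⟩ := hsyl P hP
  obtain ⟨T, hT⟩ := hsyl Q hQ
  obtain ⟨g, hg⟩ := MulAction.exists_smul_eq (K ⧸ U.subgroupOf K) S T
  obtain ⟨k, rfl⟩ := QuotientGroup.mk'_surjective (U.subgroupOf K) g
  have hiff : ∀ z, z ∈ (T : Subgroup (K ⧸ U.subgroupOf K)) ↔
      (QuotientGroup.mk' (U.subgroupOf K) k)⁻¹ * z * QuotientGroup.mk' (U.subgroupOf K) k ∈
        (S : Subgroup (K ⧸ U.subgroupOf K)) := by
    intro z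
    rw [← hg, Sylow.coe_subgroup_smul, Subgroup.mem_pointwise_smul_iff_inv_smul_mem]
    simp [MulAut.smul_def]
  have hiff2 : ∀ x : K, (x : G) ∈ Q ⊔ U ↔ (k : G)⁻¹ * x * k ∈ P ⊔ U := by
    intro x
    rw [← mem_map_iff K Q U hQ.le x, ← hT, hiff, hS, ← map_inv, ← map_mul, ← map_mul,
      mem_map_iff K P U hP.le]
    push_cast
    rfl
  refine ⟨k, k.2, ?_, ?_⟩
  · intro x hx
    exact (hiff2 ⟨x, hQ.le hx⟩).1 (Subgroup.mem_sup_left hx)
  · intro x hx
    have h4 := (hiff2 (k * ⟨x, hP.le hx⟩ * k⁻¹)).2 (by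
      push_cast
      have : (k : G)⁻¹ * (k * x * (k : G)⁻¹) * k = x := by group
      rw [this]
      exact Subgroup.mem_sup_left hx)
    simpa using h4

/-- (CNJ) Sylow subgroups are conjugate. -/
theorem t_CNJ : S_CNJ.{u} := by
  intro G _ _ _ _ _ p K P Q hp hK hP hQ
  let C : {U : Subgroup G // ON U} → Set G := fun U =>
    {k | k ∈ K ∧ (∀ x ∈ Q, k⁻¹ * x * k ∈ P ⊔ U.1) ∧ ∀ x ∈ P, k * x * k⁻¹ ∈ Q ⊔ U.1}
  have hcl : ∀ (A : Subgroup G) (U : {U : Subgroup G // ON U}),
      IsClosed ((A ⊔ U.1 : Subgroup G) : Set G) := by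
    intro A U
    apply Subgroup.isClosed_of_isOpen
    exact Subgroup.isOpen_mono le_sup_right U.2.2
  have hC : ∀ U, IsClosed (C U) := by
    intro U
    have : C U = (K : Set G) ∩ ((⋂ x ∈ Q, (fun k : G => k⁻¹ * x * k) ⁻¹' ((P ⊔ U.1 : Subgroup G) : Set G)) ∩
        ⋂ x ∈ P, (fun k : G => k * x * k⁻¹) ⁻¹' ((Q ⊔ U.1 : Subgroup G) : Set G)) := by
      ext k
      simp [C]
    rw [this]
    refine hK.inter (IsClosed.inter ?_ ?_)
    · exact isClosed_biInter fun x _ => (hcl P U).preimage (by fun_prop)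
    · exact isClosed_biInter fun x _ => (hcl Q U).preimage (by fun_prop)
  haveI : Nonempty {U : Subgroup G // ON U} := ⟨⟨⊤, inferInstance, isOpen_univ⟩⟩
  have hne : (⋂ U, C U).Nonempty := by
    apply IsCompact.nonempty_iInter_of_directed_nonempty_isCompact_isClosed
    · intro U V
      haveI := U.2.1
      haveI := V.2.1
      refine ⟨⟨U.1 ⊓ V.1, inferInstance, ?_⟩, ?_, ?_⟩
      · have h := U.2.2.inter V.2.2
        simpa using h
      · intro k hk
        exact ⟨hk.1, fun x hx => sup_le_sup_left inf_le_left P (hk.2.1 x hx),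
          fun x hx => sup_le_sup_left inf_le_left Q (hk.2.2 x hx)⟩
      · intro k hk
        exact ⟨hk.1, fun x hx => sup_le_sup_left inf_le_right P (hk.2.1 x hx),
          fun x hx => sup_le_sup_left inf_le_right Q (hk.2.2 x hx)⟩
    · intro U
      obtain ⟨k, hk, h1, h2⟩ := finite_step hp hP hQ U.2
      exact ⟨k, hk, h1, h2⟩
    · intro U
      exact (hC U).isCompact
    · exact hC
  obtain ⟨k, hk⟩ := hne
  rw [Set.mem_iInter] at hk
  refine ⟨k, (hk ⟨⊤, inferInstance, isOpen_univ⟩).1, fun x => ⟨fun hx => ?_, fun hx => ?_⟩⟩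
  · exact mem_of_forall hP.closed fun U hU => (hk ⟨U, hU⟩).2.1 x hx
  · apply mem_of_forall hQ.closed
    intro U hU
    have h := (hk ⟨U, hU⟩).2.2 _ hx
    have h1 : k * (k⁻¹ * x * k) * k⁻¹ = x := by group
    rwa [h1] at h

end Pool.Agent.J4H45.MX
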