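import Pool.Agent.J4H12.MX.Stm

/-!
# (FRA): the Frattini argument
-/

set_option autoImplicit false

universe u

namespace Pool.Agent.J4H45.MX

open Pool.Agent.J4H12.MX

/-- The conjugate `l A l⁻¹`. -/
def cj {G : Type u} [Group G] (l : G) (A : Subgroup G) : Subgroup G :=
  A.comap (MulAut.conj l⁻¹).toMonoidHom

theorem mem_cj {G : Type u} [Group G] (l : G) (A : Subgroup G) (x : G) :
    x ∈ cj l A ↔ l⁻¹ * x * l ∈ A := by
  simp [cj, Subgroup.mem_comap]

theorem cj_relIndex {G : Type u} [Group G] (l : G) (A B : Subgroup G) :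
    (cj l A).relIndex (cj l B) = A.relIndex B := by
  unfold cj
  rw [Subgroup.relIndex_comap]
  congr 1
  exact Subgroup.map_comap_eq_self_of_surjective (MulAut.conj l⁻¹).surjective B

theorem t_FRA : S_CNJ.{u} → S_FRA.{u} := by
  intro hCNJ G _ _ _ _ _ p L D P hp hL hD hDL hNz hP l hl
  have hcD : cj l D = D := by
    ext x
    rw [mem_cj]
    constructor
    · intro h
      have h1 := hNz l hl _ h
      have h2 : l * (l⁻¹ * x * l) * l⁻¹ = x := by group
      rwa [h2] at h1
    · intro h
      have h1 := hNz l⁻¹ (L.inv_mem hl) _ h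
      simpa using h1
  have hQ : Syl p D (cj l P) := by
    refine ⟨?_, ?_, ?_, ?_⟩
    · have : ((cj l P : Subgroup G) : Set G) = (fun x => l⁻¹ * x * l) ⁻¹' (P : Set G) := by
        ext x; exact mem_cj l P x
      rw [this]
      exact hP.closed.preimage (by fun_prop)
    · intro x hx
      rw [mem_cj] at hx
      rw [← hcD, mem_cj]
      exact hP.le hx
    · intro x hx U hU
      rw [mem_cj] at hx
      obtain ⟨k, hk⟩ := hP.prop _ hx U hU
      refine ⟨k, ?_⟩
      have h1 : (l⁻¹ * x * l) ^ p ^ k = l⁻¹ * x ^ p ^ k * l := by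
        have := conj_pow (a := l⁻¹) (b := x) (i := p ^ k)
        simpa using this
      rw [h1] at hk
      have h2 := hU.1.conj_mem _ hk l
      simpa [mul_assoc] using h2
    · intro U hU hdv
      apply hP.idx U hU
      have hcU : cj l U = U := by
        ext x
        rw [mem_cj]
        constructor
        · intro h
          have h2 := hU.1.conj_mem _ h l
          simpa [mul_assoc] using h2
        · intro h
          have h2 := hU.1.conj_mem _ h l⁻¹
          simpa [mul_assoc] using h2
      have h3 : cj l P ⊔ U = cj l (P ⊔ U) := by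
        haveI := hU.1
        ext x
        rw [mem_cj]
        constructor
        · intro h
          obtain ⟨a, ha, b, hb, hab⟩ := Subgroup.mem_sup_of_normal_right.1 h
          rw [mem_cj] at ha
          rw [← hcU, mem_cj] at hb
          have h4 : l⁻¹ * x * l = (l⁻¹ * a * l) * (l⁻¹ * b * l) := by
            rw [← hab]; group
          rw [h4]
          exact Subgroup.mul_mem_sup ha hb
        · intro h
          obtain ⟨a, ha, b, hb, hab⟩ := Subgroup.mem_sup_of_normal_right.1 h
          have h4 : x = (l * a * l⁻¹) * (l * b * l⁻¹) := by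
            have : x = l * (l⁻¹ * x * l) * l⁻¹ := by group
            rw [this, ← hab]; group
          rw [h4]
          apply Subgroup.mul_mem_sup
          · rw [mem_cj]
            simpa [mul_assoc] using ha
          · exact hU.1.conj_mem _ hb l
      rw [h3] at hdv
      have h5 := cj_relIndex l (P ⊔ U) D
      rw [hcD] at h5
      rwa [h5] at hdv
  obtain ⟨k, hk, hiff⟩ := hCNJ G p D P (cj l P) hp hD hP hQ
  refine ⟨k, hk, k⁻¹ * l, L.mul_mem (L.inv_mem (hDL hk)) hl, by group, ?_⟩
  intro x
  have h1 := hiff (l * x * l⁻¹)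
  rw [mem_cj] at h1
  have h2 : l⁻¹ * (l * x * l⁻¹) * l = x := by group
  have h3 : k⁻¹ * (l * x * l⁻¹) * k = k⁻¹ * l * x * (k⁻¹ * l)⁻¹ := by group
  rwa [h2, h3] at h1

end Pool.Agent.J4H45.MX
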